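import Pool.Agent.H27.G.R_seed8.H442R2.KF.Kfb
import Pool.Agent.H27.G.R_seed8.H442R2.KF.Weil

namespace Pool.Agent.H442R2.KF

open Finset

namespace Inc

/-- a progression in an interval -/
lemma prog (R : ℕ) (hR : 0 < R) (r A B : ℤ) (hAB : A ≤ B) :
    ∃ (m₀ : ℤ) (H : ℕ), (H : ℝ) ≤ ((B : ℝ) - A) / R + 1 ∧
      (Icc A B).filter (fun m : ℤ => m ≡ r [ZMOD R]) =
        (range H).image (fun k : ℕ => m₀ + R * k) := by
  have hR' : (0 : ℤ) < R := by exact_mod_cast hR
  have hRr : (0 : ℝ) < R := by exact_mod_cast hR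
  set m₀ : ℤ := A + (r - A) % R with hm₀
  have h0 : 0 ≤ (r - A) % R := Int.emod_nonneg _ hR'.ne'
  have h1 : (r - A) % R < R := Int.emod_lt_of_pos _ hR'
  have hmod : (R : ℤ) ∣ r - m₀ := by
    have h2 : (R : ℤ) ∣ (r - A) - (r - A) % R := Int.dvd_self_sub_emod
    have h3 : r - m₀ = (r - A) - (r - A) % R := by rw [hm₀]; ring
    rw [h3]; exact h2
  refine ⟨m₀, if m₀ ≤ B then ((B - m₀) / R).toNat + 1 else 0, ?_, ?_⟩
  · split_ifs with hB
    · have h4 : 0 ≤ (B - m₀) / R := Int.ediv_nonneg (by omega) hR'.le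
      have h5 : (((B - m₀) / R).toNat : ℤ) = (B - m₀) / R := Int.toNat_of_nonneg h4
      have h6 : ((((B - m₀) / R).toNat : ℕ) : ℝ) ≤ ((B : ℝ) - A) / R := by
        rw [le_div_iff₀ hRr]
        have h7 : (B - m₀) / R * R ≤ B - m₀ := Int.ediv_mul_le _ hR'.ne'
        have h8 : (((B - m₀) / R).toNat : ℤ) * R ≤ B - A := by rw [h5]; omega
        exact_mod_cast h8
      push_cast
      linarith
    · have : 0 ≤ ((B : ℝ) - A) / R := by
        apply div_nonneg _ hRr.le
        have : (A : ℝ) ≤ B := by exact_mod_cast hAB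
        linarith
      push_cast
      linarith
  · ext m
    simp only [mem_filter, mem_Icc, mem_image, mem_range]
    constructor
    · rintro ⟨⟨hA, hB⟩, hm⟩
      have h2 : (R : ℤ) ∣ m - m₀ := by
        have h3 : (R : ℤ) ∣ r - m := hm.dvd
        have := dvd_sub hmod h3
        have h4 : r - m₀ - (r - m) = m - m₀ := by ring
        rwa [h4] at this
      obtain ⟨t, ht⟩ := h2
      have ht0 : 0 ≤ t := by
        by_contra hneg
        push Not at hneg
        have : (R : ℤ) * t ≤ R * (-1) := by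
          apply mul_le_mul_of_nonneg_left _ hR'.le
          omega
        omega
      have hmB : m₀ ≤ B := by
        have : 0 ≤ (R : ℤ) * t := mul_nonneg hR'.le ht0
        omega
      refine ⟨t.toNat, ?_, ?_⟩
      · rw [if_pos hmB]
        have h5 : t ≤ (B - m₀) / R := by
          rw [Int.le_ediv_iff_mul_le hR']
          linarith [mul_comm (R : ℤ) t]
        have h6 : t.toNat ≤ ((B - m₀) / R).toNat := Int.toNat_le_toNat h5
        omega
      · rw [Int.toNat_of_nonneg ht0]
        linarith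
    · rintro ⟨k, hk, rfl⟩
      split_ifs at hk with hB
      · have h4 : 0 ≤ (B - m₀) / R := Int.ediv_nonneg (by omega) hR'.le
        have h5 : (k : ℤ) ≤ (B - m₀) / R := by
          have : k ≤ ((B - m₀) / R).toNat := by omega
          calc (k : ℤ) ≤ (((B - m₀) / R).toNat : ℤ) := by exact_mod_cast this
            _ = _ := Int.toNat_of_nonneg h4
        rw [Int.le_ediv_iff_mul_le hR'] at h5
        have h6 : (0 : ℤ) ≤ (R : ℤ) * k := by positivity
        refine ⟨⟨by omega, by linarith [mul_comm (R : ℤ) k]⟩, ?_⟩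
        apply Int.ModEq.symm
        apply (Int.modEq_iff_dvd).2
        have h7 : m₀ + (R : ℤ) * k - r = -(r - m₀) + R * k := by ring
        rw [h7]
        exact dvd_add (hmod.neg_right) (dvd_mul_right _ _)
      · omega

/-- the geometric sum -/
lemma geom (q : ℕ) [NeZero q] (w : ZMod q) (hw : w ≠ 0) (H : ℕ) :
    ‖∑ k ∈ range H, ZMod.stdAddChar (w * (k : ZMod q))‖ ≤
      (q : ℝ) / 2 * (1 / (w.val : ℝ) + 1 / ((q : ℝ) - w.val)) := by
  have hq : (0 : ℝ) < q := by exact_mod_cast Nat.pos_of_ne_zero (NeZero.ne q)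
  have hv0 : 0 < w.val := by
    rcases Nat.eq_zero_or_pos w.val with h | h
    · exact absurd ((ZMod.val_eq_zero w).1 h) hw
    · exact h
  have hvq : w.val < q := ZMod.val_lt w
  have hv0' : (0 : ℝ) < w.val := by exact_mod_cast hv0
  have hvq' : (w.val : ℝ) < q := by exact_mod_cast hvq
  set z : ℂ := ZMod.stdAddChar w with hz
  have hpow : ∀ k : ℕ, ZMod.stdAddChar (w * (k : ZMod q)) = z ^ k := by
    intro k
    rw [hz, ← AddChar.map_nsmul_eq_pow, nsmul_eq_mul, mul_comm]
  have hnz : ‖z‖ = 1 := by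
    rw [hz]; exact AddChar.norm_apply _ _
  have hz1 : ‖z - 1‖ = 2 * Real.sin (Real.pi * (w.val : ℝ) / q) := by
    have h1 : z = Complex.exp (Complex.I * ((2 * Real.pi * (w.val : ℝ) / q : ℝ) : ℂ)) := by
      have h2 : w = ((w.val : ℤ) : ZMod q) := by
        rw [Int.cast_natCast, ZMod.natCast_zmod_val]
      rw [hz]
      conv_lhs => rw [h2]
      rw [ZMod.stdAddChar_coe]
      congr 1
      push_cast
      ring
    rw [h1, Complex.norm_exp_I_mul_ofReal_sub_one, Real.norm_eq_abs]
    have h3 : 2 * Real.pi * (w.val : ℝ) / q / 2 = Real.pi * (w.val : ℝ) / q := by ring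
    rw [h3, abs_of_nonneg]
    have : 0 ≤ Real.sin (Real.pi * (w.val : ℝ) / q) := by
      apply Real.sin_nonneg_of_nonneg_of_le_pi
      · positivity
      · rw [div_le_iff₀ hq]
        exact mul_le_mul_of_nonneg_left hvq'.le Real.pi_pos.le
    linarith
  -- lower bound for the sine
  set m : ℝ := min (w.val : ℝ) ((q : ℝ) - w.val) with hm
  have hm0 : 0 < m := lt_min hv0' (by linarith)
  have hsin : 2 * m / q ≤ Real.sin (Real.pi * (w.val : ℝ) / q) := by
    rcases le_total (w.val : ℝ) ((q : ℝ) - w.val) with h | h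
    · have h1 : m = w.val := min_eq_left h
      have := Real.mul_le_sin (x := Real.pi * (w.val : ℝ) / q) (by positivity) (by
        rw [div_le_div_iff₀ hq (by norm_num)]
        nlinarith [Real.pi_pos])
      rw [h1]
      calc 2 * (w.val : ℝ) / q = 2 / Real.pi * (Real.pi * (w.val : ℝ) / q) := by
            field_simp
        _ ≤ _ := this
    · have h1 : m = (q : ℝ) - w.val := min_eq_right h
      have h2 : Real.sin (Real.pi * (w.val : ℝ) / q) =
          Real.sin (Real.pi * ((q : ℝ) - w.val) / q) := by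
        rw [← Real.sin_pi_sub]
        congr 1
        field_simp
      have := Real.mul_le_sin (x := Real.pi * ((q : ℝ) - w.val) / q)
        (by apply div_nonneg _ hq.le; apply mul_nonneg Real.pi_pos.le; linarith) (by
        rw [div_le_div_iff₀ hq (by norm_num)]
        nlinarith [Real.pi_pos])
      rw [h1, h2]
      calc 2 * ((q : ℝ) - w.val) / q = 2 / Real.pi * (Real.pi * ((q : ℝ) - w.val) / q) := by
            field_simp
        _ ≤ _ := this
  have hne : z ≠ 1 := by
    intro h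
    rw [h, sub_self, norm_zero] at hz1
    have : 0 < 2 * m / q := by positivity
    linarith
  simp_rw [hpow]
  rw [geom_sum_eq hne, norm_div]
  have hnum : ‖z ^ H - 1‖ ≤ 2 := by
    calc ‖z ^ H - 1‖ ≤ ‖z ^ H‖ + ‖(1 : ℂ)‖ := norm_sub_le _ _
      _ = 2 := by rw [norm_pow, hnz, one_pow, norm_one]; norm_num
  have hden : 4 * m / q ≤ ‖z - 1‖ := by
    rw [hz1]
    calc 4 * m / q = 2 * (2 * m / q) := by ring
      _ ≤ _ := by linarith
  have hmin : 1 / m ≤ 1 / (w.val : ℝ) + 1 / ((q : ℝ) - w.val) := by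
    have hp : 0 < (q : ℝ) - w.val := by linarith
    rcases le_total (w.val : ℝ) ((q : ℝ) - w.val) with h | h
    · rw [hm, min_eq_left h]
      have := one_div_pos.2 hp
      linarith
    · rw [hm, min_eq_right h]
      have := one_div_pos.2 hv0'
      linarith
  calc ‖z ^ H - 1‖ / ‖z - 1‖ ≤ 2 / (4 * m / q) := by
        apply div_le_div₀ (by norm_num) hnum (by positivity) hden
    _ = (q : ℝ) / 2 * (1 / m) := by field_simp; ring
    _ ≤ _ := by
        apply mul_le_mul_of_nonneg_left hmin (by positivity)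

lemma harm (q : ℕ) :
    ∑ v ∈ Ico 1 q, (1 / (v : ℝ) + 1 / ((q : ℝ) - v)) ≤ 2 * (1 + Real.log q) := by
  rw [sum_add_distrib]
  have h1 : ∑ v ∈ Ico 1 q, 1 / ((q : ℝ) - v) = ∑ v ∈ Ico 1 q, 1 / (v : ℝ) := by
    refine sum_bij' (fun v _ => q - v) (fun v _ => q - v) ?_ ?_ ?_ ?_ ?_
    · intro v hv; rw [mem_Ico] at *; omega
    · intro v hv; rw [mem_Ico] at *; omega
    · intro v hv; rw [mem_Ico] at *; show q - (q - v) = v; omega
    · intro v hv; rw [mem_Ico] at *; show q - (q - v) = v; omega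
    · intro v hv
      rw [mem_Ico] at hv
      rw [Nat.cast_sub hv.2.le]
  rw [h1]
  have h2 : ∑ v ∈ Ico 1 q, 1 / (v : ℝ) ≤ 1 + Real.log q := by
    have h3 : ∑ v ∈ Ico 1 q, 1 / (v : ℝ) ≤ (harmonic q : ℝ) := by
      rw [harmonic_eq_sum_Icc]
      push_cast
      rw [show (∑ v ∈ Ico 1 q, 1 / (v : ℝ)) = ∑ v ∈ Ico 1 q, ((v : ℝ))⁻¹ from
        sum_congr rfl (fun v _ => one_div _)]
      apply sum_le_sum_of_subset_of_nonneg
      · intro v hv; rw [mem_Ico] at hv; rw [mem_Icc]; omega
      · intro v _ _; positivity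
    exact h3.trans (harmonic_le_one_add_log q)
  linarith

lemma sumgeom (q : ℕ) [NeZero q] (H : ℕ) :
    ∑ w : ZMod q, ‖∑ k ∈ range H, ZMod.stdAddChar (w * (k : ZMod q))‖ ≤
      H + q * (1 + Real.log q) := by
  have hq0 : 0 < q := Nat.pos_of_ne_zero (NeZero.ne q)
  have hq : (0 : ℝ) < q := by exact_mod_cast hq0
  rw [← add_sum_erase univ _ (mem_univ (0 : ZMod q))]
  apply add_le_add
  · simp
  · have h1 : ∑ w ∈ univ.erase (0 : ZMod q), ‖∑ k ∈ range H, ZMod.stdAddChar (w * (k : ZMod q))‖ ≤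
        ∑ w ∈ univ.erase (0 : ZMod q),
          (q : ℝ) / 2 * (1 / (w.val : ℝ) + 1 / ((q : ℝ) - w.val)) := by
      apply sum_le_sum
      intro w hw
      exact geom q w (ne_of_mem_erase hw) H
    refine h1.trans ?_
    rw [← mul_sum]
    have h2 : ∑ w ∈ univ.erase (0 : ZMod q), (1 / (w.val : ℝ) + 1 / ((q : ℝ) - w.val)) =
        ∑ v ∈ Ico 1 q, (1 / (v : ℝ) + 1 / ((q : ℝ) - v)) := by
      refine sum_bij' (fun w _ => w.val) (fun v _ => (v : ZMod q)) ?_ ?_ ?_ ?_ ?_
      · intro w hw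
        have hw0 := ne_of_mem_erase hw
        rw [mem_Ico]
        refine ⟨?_, ZMod.val_lt w⟩
        rcases Nat.eq_zero_or_pos w.val with h | h
        · exact absurd ((ZMod.val_eq_zero w).1 h) hw0
        · exact h
      · intro v hv
        rw [mem_Ico] at hv
        rw [mem_erase]
        refine ⟨?_, mem_univ _⟩
        intro h
        rw [ZMod.natCast_eq_zero_iff] at h
        have := Nat.le_of_dvd (by omega) h
        omega
      · intro w hw
        exact ZMod.natCast_zmod_val w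
      · intro v hv
        rw [mem_Ico] at hv
        exact ZMod.val_natCast_of_lt hv.2
      · intro w hw
        rfl
    rw [h2]
    calc (q : ℝ) / 2 * ∑ v ∈ Ico 1 q, (1 / (v : ℝ) + 1 / ((q : ℝ) - v)) ≤
          (q : ℝ) / 2 * (2 * (1 + Real.log q)) :=
          mul_le_mul_of_nonneg_left (harm q) (by positivity)
      _ = _ := by ring

/-- completion -/
lemma completion (q R : ℕ) [NeZero q] (hqR : Nat.Coprime q R) (φ : ZMod q → ℂ) (W : ℝ)
    (hW0 : 0 ≤ W)
    (hW : ∀ w : ZMod q, ‖∑ u : ZMod q, ZMod.stdAddChar (-(u * w)) * φ u‖ ≤ W) (m₀ : ℤ) (H : ℕ) :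
    ‖∑ k ∈ range H, φ (((m₀ + R * k : ℤ)) : ZMod q)‖ ≤ W * ((H : ℝ) / q + 1 + Real.log q) := by
  have hq0 : 0 < q := Nat.pos_of_ne_zero (NeZero.ne q)
  have hq : (0 : ℝ) < q := by exact_mod_cast hq0
  have hinv : ∀ u : ZMod q, φ u = (q : ℂ)⁻¹ *
      ∑ w : ZMod q, ZMod.stdAddChar (w * u) *
        ∑ v : ZMod q, ZMod.stdAddChar (-(v * w)) * φ v := by
    intro u
    have h1 := congrFun ((ZMod.dft (N := q) (E := ℂ)).symm_apply_apply φ) u
    rw [ZMod.invDFT_apply] at h1
    rw [← h1]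
    simp only [smul_eq_mul, ZMod.dft_apply]
  have h2 : ∑ k ∈ range H, φ (((m₀ + R * k : ℤ)) : ZMod q) =
      (q : ℂ)⁻¹ * ∑ w : ZMod q, (∑ v : ZMod q, ZMod.stdAddChar (-(v * w)) * φ v) *
        (ZMod.stdAddChar (w * (m₀ : ZMod q)) *
          ∑ k ∈ range H, ZMod.stdAddChar ((w * (R : ZMod q)) * (k : ZMod q))) := by
    rw [sum_congr rfl (fun k _ => hinv _), ← mul_sum, sum_comm]
    congr 1
    apply sum_congr rfl
    intro w _
    rw [mul_sum, mul_sum]
    apply sum_congr rfl
    intro k _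
    have h3 : w * (((m₀ + R * k : ℤ)) : ZMod q) =
        w * (m₀ : ZMod q) + (w * (R : ZMod q)) * (k : ZMod q) := by
      push_cast
      ring
    rw [h3, AddChar.map_add_eq_mul]
    ring
  rw [h2, norm_mul, norm_inv, Complex.norm_natCast]
  have hRu : IsUnit (R : ZMod q) := (ZMod.isUnit_iff_coprime R q).2 hqR.symm
  have h4 : ‖∑ w : ZMod q, (∑ v : ZMod q, ZMod.stdAddChar (-(v * w)) * φ v) *
        (ZMod.stdAddChar (w * (m₀ : ZMod q)) *
          ∑ k ∈ range H, ZMod.stdAddChar ((w * (R : ZMod q)) * (k : ZMod q)))‖ ≤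
      W * (H + q * (1 + Real.log q)) := by
    calc _ ≤ ∑ w : ZMod q, ‖(∑ v : ZMod q, ZMod.stdAddChar (-(v * w)) * φ v) *
        (ZMod.stdAddChar (w * (m₀ : ZMod q)) *
          ∑ k ∈ range H, ZMod.stdAddChar ((w * (R : ZMod q)) * (k : ZMod q)))‖ := norm_sum_le _ _
      _ ≤ ∑ w : ZMod q, W * ‖∑ k ∈ range H,
            ZMod.stdAddChar ((w * (R : ZMod q)) * (k : ZMod q))‖ := by
          apply sum_le_sum
          intro w _
          rw [norm_mul, norm_mul, AddChar.norm_apply, one_mul]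
          exact mul_le_mul_of_nonneg_right (hW w) (norm_nonneg _)
      _ = W * ∑ w : ZMod q, ‖∑ k ∈ range H, ZMod.stdAddChar (w * (k : ZMod q))‖ := by
          rw [← mul_sum]
          congr 1
          have hbij : Function.Bijective (fun w : ZMod q => w * (R : ZMod q)) := by
            apply Finite.injective_iff_bijective.1
            intro a b hab
            exact hRu.mul_right_cancel hab
          exact Fintype.sum_bijective (fun w : ZMod q => w * (R : ZMod q)) hbij _ _
            (fun w => rfl)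
      _ ≤ W * (H + q * (1 + Real.log q)) :=
          mul_le_mul_of_nonneg_left (sumgeom q H) hW0
  calc (q : ℝ)⁻¹ * _ ≤ (q : ℝ)⁻¹ * (W * (H + q * (1 + Real.log q))) :=
        mul_le_mul_of_nonneg_left h4 (by positivity)
    _ = _ := by field_simp; ring

end Inc

/-- C (Inc.lean): incomplete Kloosterman sums in a progression -/
theorem incomplete (q R : ℕ) (hq : Squarefree q) (hq0 : 0 < q) (hR : 0 < R)
    (hqR : Nat.Coprime q R) (c : ℤ) (hc : Int.gcd c q = 1) (r A B : ℤ) (hAB : A ≤ B) :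
    ‖∑ m ∈ (Icc A B).filter (fun m : ℤ => m ≡ r [ZMOD R] ∧ Int.gcd m q = 1), kf c m q‖ ≤
      2 ^ q.primeFactors.card * Real.sqrt q * ((B - A) / (R * q) + 2 + Real.log q) := by
  have : NeZero q := ⟨hq0.ne'⟩
  have hqr : (0 : ℝ) < q := by exact_mod_cast hq0
  have hRr : (0 : ℝ) < R := by exact_mod_cast hR
  obtain ⟨m₀, H, hH, hS⟩ := Inc.prog R hR r A B hAB
  classical
  set φ : ZMod q → ℂ := fun u => if IsUnit u then ZMod.stdAddChar ((c : ZMod q) * u⁻¹) else 0
    with hφ
  have hunit : ∀ m : ℤ, Int.gcd m q = 1 ↔ IsUnit (m : ZMod q) := by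
    intro m
    rw [ZMod.coe_int_isUnit_iff_isCoprime, isCoprime_comm, Int.isCoprime_iff_gcd_eq_one]
  have hcu : IsUnit (c : ZMod q) := (hunit c).1 hc
  have h1 : ∑ m ∈ (Icc A B).filter (fun m : ℤ => m ≡ r [ZMOD R] ∧ Int.gcd m q = 1), kf c m q =
      ∑ k ∈ range H, φ (((m₀ + R * k : ℤ)) : ZMod q) := by
    rw [← filter_filter, sum_filter, hS, sum_image]
    · apply sum_congr rfl
      intro k _
      rw [hφ]
      simp only
      by_cases h : Int.gcd (m₀ + R * k) q = 1
      · rw [if_pos h, if_pos ((hunit _).1 h), kf_eq_char]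
      · rw [if_neg h, if_neg (fun h' => h ((hunit _).2 h'))]
    · intro a _ b _ hab
      simp only at hab
      have h2 : (R : ℤ) * a = R * b := by linarith
      have h3 : (R : ℤ) ≠ 0 := by exact_mod_cast hR.ne'
      exact_mod_cast mul_left_cancel₀ h3 h2
  have hW : ∀ w : ZMod q, ‖∑ u : ZMod q, ZMod.stdAddChar (-(u * w)) * φ u‖ ≤
      2 ^ q.primeFactors.card * Real.sqrt q := by
    intro w
    have h2 : ∑ u : ZMod q, ZMod.stdAddChar (-(u * w)) * φ u =
        ∑ u : (ZMod q)ˣ, ZMod.stdAddChar (-w * (u : ZMod q) +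
          (c : ZMod q) * ((u⁻¹ : (ZMod q)ˣ) : ZMod q)) := by
      have h3 : ∑ u : ZMod q, ZMod.stdAddChar (-(u * w)) * φ u =
          ∑ u ∈ univ.filter (fun u : ZMod q => IsUnit u),
            ZMod.stdAddChar (-(u * w)) * ZMod.stdAddChar ((c : ZMod q) * u⁻¹) := by
        rw [sum_filter]
        apply sum_congr rfl
        intro u _
        rw [hφ]
        simp only
        split_ifs with h
        · rfl
        · rw [mul_zero]
      rw [h3]
      symm
      refine sum_bij (fun (u : (ZMod q)ˣ) _ => (u : ZMod q)) ?_ ?_ ?_ ?_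
      · intro u _
        rw [mem_filter]
        exact ⟨mem_univ _, u.isUnit⟩
      · intro a _ b _ hab
        exact Units.ext hab
      · intro b hb
        rw [mem_filter] at hb
        exact ⟨hb.2.unit, mem_univ _, rfl⟩
      · intro u _
        rw [AddChar.map_add_eq_mul]
        congr 2
        · ring
        · rw [ZMod.inv_coe_unit]
    rw [h2]
    exact weil_sf q hq (-w) (c : ZMod q) hcu
  rw [h1]
  have hW0 : (0 : ℝ) ≤ 2 ^ q.primeFactors.card * Real.sqrt q := by positivity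
  refine (Inc.completion q R hqR φ _ hW0 hW m₀ H).trans ?_
  apply mul_le_mul_of_nonneg_left _ hW0
  have h5 : (H : ℝ) / q ≤ (B - A) / (R * q) + 1 := by
    calc (H : ℝ) / q ≤ (((B : ℝ) - A) / R + 1) / q := by
          apply div_le_div_of_nonneg_right hH hqr.le
      _ = (B - A) / (R * q) + 1 / q := by field_simp
      _ ≤ (B - A) / (R * q) + 1 := by
          have : 1 / (q : ℝ) ≤ 1 := by
            rw [div_le_one hqr]
            exact_mod_cast hq0
          linarith
  linarith

end Pool.Agent.H442R2.KF
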