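import Pool.Agent.H27.G.R_seed8.H442R2.KF.Defs

set_option autoImplicit false

/-! KF project (helper442), task A: basic facts about Kloosterman fractions. -/

namespace Pool.Agent.H442R2.KF

open Finset

namespace TaskA

/-- `e(u/n)` depends only on `u` modulo `n` -/
theorem e_zmod (n : ℕ) (hn : 0 < n) (u u' : ℤ) (h : (u : ZMod n) = (u' : ZMod n)) :
    e ((u : ℝ) / n) = e ((u' : ℝ) / n) := by
  have h1 : (n : ℤ) ∣ u - u' := by
    rw [← ZMod.intCast_zmod_eq_zero_iff_dvd, Int.cast_sub, h, sub_self]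
  obtain ⟨z, hz⟩ := h1
  have hn' : (n : ℝ) ≠ 0 := by exact_mod_cast hn.ne'
  refine e_congr z ?_
  have h2 : (u : ℝ) = u' + n * z := by
    have h3 : u = u' + n * z := by linarith
    exact_mod_cast h3
  rw [h2]
  field_simp

theorem val_cast (n : ℕ) (hn : 0 < n) (a : ZMod n) : (((a.val : ℕ) : ℤ) : ZMod n) = a := by
  have : NeZero n := ⟨hn.ne'⟩
  rw [Int.cast_natCast, ZMod.natCast_zmod_val]

theorem kf_def' (n : ℕ) (b m : ℤ) :
    kf b m n = e (((b * ((((m : ZMod n)⁻¹).val : ℕ) : ℤ) : ℤ) : ℝ) / n) := by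
  unfold kf
  push_cast
  rfl

theorem kf_char (n : ℕ) (hn : 0 < n) (b m c : ℤ) (h : (c : ZMod n) = (b : ZMod n) * (m : ZMod n)⁻¹) :
    kf b m n = e ((c : ℝ) / n) := by
  rw [kf_def']
  apply e_zmod n hn
  rw [h, Int.cast_mul, val_cast n hn]

theorem inv_of (n : ℕ) (m k : ℤ) (h : ((m * k : ℤ) : ZMod n) = 1) :
    (m : ZMod n)⁻¹ = (k : ZMod n) := by
  rw [Int.cast_mul] at h
  have hu : IsUnit (m : ZMod n) := IsUnit.of_mul_eq_one _ h
  calc (m : ZMod n)⁻¹ = (m : ZMod n)⁻¹ * ((m : ZMod n) * k) := by rw [h, mul_one]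
    _ = k := by rw [← mul_assoc, ZMod.inv_mul_of_unit _ hu, one_mul]

theorem unit_inv (n : ℕ) (hn : 0 < n) (m : ℤ) (h : IsCoprime m (n : ℤ)) :
    ∃ x : ℤ, ((m * x : ℤ) : ZMod n) = 1 ∧ (m : ZMod n)⁻¹ = (x : ZMod n) := by
  have hu : IsUnit (m : ZMod n) := (ZMod.coe_int_isUnit_iff_isCoprime m n).2 h.symm
  refine ⟨((((m : ZMod n)⁻¹).val : ℕ) : ℤ), ?_, ?_⟩
  · rw [Int.cast_mul, val_cast n hn, ZMod.mul_inv_of_unit _ hu]
  · rw [val_cast n hn]

end TaskA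

open TaskA

/-- A (Kfb.lean) -/
theorem kf_of_inv (n : ℕ) (hn : 0 < n) (b m k : ℤ) (h : ((m * k : ℤ) : ZMod n) = 1) :
    kf b m n = e ((b : ℝ) * k / n) := by
  rw [kf_char n hn b m (b * k) (by rw [inv_of n m k h, Int.cast_mul])]
  push_cast
  rfl

/-- A (Kfb.lean) -/
theorem kf_congr (n : ℕ) (hn : 0 < n) (b b' m m' : ℤ) (hb : (b : ZMod n) = (b' : ZMod n))
    (hm : (m : ZMod n) = (m' : ZMod n)) : kf b m n = kf b' m' n := by
  rw [kf_def' n b m, kf_def' n b' m', hm]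
  apply e_zmod n hn
  rw [Int.cast_mul, Int.cast_mul, hb]

/-- A (Kfb.lean) -/
theorem kf_eq_char (n : ℕ) [NeZero n] (b m : ℤ) :
    kf b m n = ZMod.stdAddChar ((b : ZMod n) * (m : ZMod n)⁻¹) := by
  have hn : 0 < n := Nat.pos_of_ne_zero (NeZero.ne n)
  have h1 : (b : ZMod n) * (m : ZMod n)⁻¹ =
      ((b * ((((m : ZMod n)⁻¹).val : ℕ) : ℤ) : ℤ) : ZMod n) := by
    rw [Int.cast_mul, val_cast n hn]
  rw [h1, ZMod.stdAddChar_coe, kf_def']
  unfold e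
  congr 1
  push_cast
  ring

/-- A (Kfb.lean): reciprocity -/
theorem kf_recip (B : ℤ) (K n : ℕ) (hK : 0 < K) (hn : 0 < n) (h : Nat.Coprime K n) :
    kf B K n = e ((B : ℝ) / ((n : ℝ) * K)) * (starRingEnd ℂ) (kf B n K) := by
  have hc : IsCoprime (K : ℤ) (n : ℤ) := Nat.isCoprime_iff_coprime.2 h
  obtain ⟨x, hx, -⟩ := unit_inv n hn K hc
  obtain ⟨y, hy, -⟩ := unit_inv K hK n hc.symm
  have hKr : (K : ℝ) ≠ 0 := by exact_mod_cast hK.ne'
  have hnr : (n : ℝ) ≠ 0 := by exact_mod_cast hn.ne'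
  -- `K x + n y = 1 + n K z`
  have h1 : (n : ℤ) ∣ (K : ℤ) * x + n * y - 1 := by
    rw [← ZMod.intCast_zmod_eq_zero_iff_dvd]
    push_cast at hx ⊢
    rw [hx]
    simp
  have h2 : (K : ℤ) ∣ (K : ℤ) * x + n * y - 1 := by
    rw [← ZMod.intCast_zmod_eq_zero_iff_dvd]
    push_cast at hy ⊢
    rw [hy]
    simp
  obtain ⟨z, hz⟩ := hc.symm.mul_dvd h1 h2
  have hz' : (K : ℝ) * x + n * y - 1 = n * K * z := by exact_mod_cast hz
  rw [kf_of_inv n hn B K x hx, kf_of_inv K hK B n y hy, conj_e, ← e_add]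
  refine e_congr (B * z) ?_
  push_cast
  field_simp
  linear_combination (B : ℝ) * hz'

/-- A (Kfb.lean): Chinese remainder theorem -/
theorem kf_crt (B k : ℤ) (q w : ℕ) (hq : 0 < q) (hw : 0 < w) (hqw : Nat.Coprime q w)
    (hk : Int.gcd k (q * w) = 1) :
    kf B k (q * w) = kf B (k * w) q * kf B (k * q) w := by
  have hkc : IsCoprime k ((q : ℤ) * w) := Int.isCoprime_iff_gcd_eq_one.2 hk
  have hkq : IsCoprime k (q : ℤ) := hkc.of_isCoprime_of_dvd_right (Dvd.intro _ rfl)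
  have hkw : IsCoprime k (w : ℤ) := hkc.of_isCoprime_of_dvd_right (Dvd.intro_left _ rfl)
  have hc : IsCoprime (q : ℤ) (w : ℤ) := Nat.isCoprime_iff_coprime.2 hqw
  obtain ⟨x, hx, -⟩ := unit_inv q hq (k * w) (hkq.mul_left hc.symm)
  obtain ⟨y, hy, -⟩ := unit_inv w hw (k * q) (hkw.mul_left hc)
  have hqr : (q : ℝ) ≠ 0 := by exact_mod_cast hq.ne'
  have hwr : (w : ℝ) ≠ 0 := by exact_mod_cast hw.ne'
  have h1 : (q : ℤ) ∣ k * (w * x + q * y) - 1 := by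
    rw [← ZMod.intCast_zmod_eq_zero_iff_dvd]
    push_cast at hx ⊢
    rw [ZMod.natCast_self, zero_mul, add_zero, ← mul_assoc, hx, sub_self]
  have h2 : (w : ℤ) ∣ k * (w * x + q * y) - 1 := by
    rw [← ZMod.intCast_zmod_eq_zero_iff_dvd]
    push_cast at hy ⊢
    rw [ZMod.natCast_self, zero_mul, zero_add, ← mul_assoc, hy, sub_self]
  have h3 : ((k * (w * x + q * y) : ℤ) : ZMod (q * w)) = 1 := by
    have h4 := hc.mul_dvd h1 h2
    have h5 : ((k * (w * x + q * y) - 1 : ℤ) : ZMod (q * w)) = 0 := by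
      rw [ZMod.intCast_zmod_eq_zero_iff_dvd]
      push_cast
      exact h4
    rw [Int.cast_sub, Int.cast_one, sub_eq_zero] at h5
    exact h5
  rw [kf_of_inv (q * w) (Nat.mul_pos hq hw) B k (w * x + q * y) h3, kf_of_inv q hq B (k * w) x hx,
    kf_of_inv w hw B (k * q) y hy, ← e_add]
  congr 1
  push_cast
  field_simp

end Pool.Agent.H442R2.KF
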